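import Pool.Agent.H95.FC.Targets
import Pool.Agent.H37.CF.Basic

/-!
# Complete fourth moment (`MP_52e316_nt`), row CHX: two characters of the same conductor and weight
-/

set_option autoImplicit false

open MeasureTheory Set Filter NumberField
open scoped Real nonZeroDivisors Matrix MatrixGroups

namespace Pool.Agent.H48.FC

open Pool.Agent.H31.CN Pool.Agent.H89.FM Pool.Agent.H61.FM Pool.Agent.H89.FC Pool.Agent.H95.FC

theorem pf_CHX : Pool.Agent.H95.FC.T_CHX := by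
  intro K _ _ σ f m ψ₀ ψ G _ cl hG h0 h1
  have hn : ∀ {χ : Ideal (𝓞 K) → ℂ}, RCh K σ f m χ → ∀ I, Pool.Agent.H95.CF.Pr K f I →
      χ I ≠ 0 := by
    intro χ hχ I hI h
    have h2 := hχ.abs I hI
    rw [h, norm_zero] at h2
    exact zero_ne_one h2
  have hsp : ∀ a : 𝓞 K, Pool.Agent.H95.CF.Rat K f f a →
      ψ (Ideal.span {a}) = ψ₀ (Ideal.span {a}) := fun a ha => by
    rw [h1.prc a ha, h0.prc a ha]
  have hwd : ∀ I J, Pool.Agent.H95.CF.Pr K f I → Pool.Agent.H95.CF.Pr K f J → cl I = cl J →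
      ψ I / ψ₀ I = ψ J / ψ₀ J := by
    intro I J hI hJ hIJ
    obtain ⟨a, b, ha, hb, hab⟩ := (hG.eqv I J hI hJ).1 hIJ
    have e1 : ψ (Ideal.span {a}) * ψ I = ψ (Ideal.span {b}) * ψ J := by
      rw [← h1.mul, hab, h1.mul]
    have e2 : ψ₀ (Ideal.span {a}) * ψ₀ I = ψ₀ (Ideal.span {b}) * ψ₀ J := by
      rw [← h0.mul, hab, h0.mul]
    rw [hsp a ha, hsp b hb] at e1
    have na := hn h0 _ ha.1
    have nb := hn h0 _ hb.1
    rw [← mul_div_mul_left (ψ I) (ψ₀ I) na, ← mul_div_mul_left (ψ J) (ψ₀ J) nb, e1, e2]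
  choose S hS1 hS2 using hG.sur
  have hq : ∀ g, ψ (S g) / ψ₀ (S g) ≠ 0 := fun g =>
    div_ne_zero (hn h1 _ (hS1 g)) (hn h0 _ (hS1 g))
  let φ : G →* ℂˣ := MonoidHom.mk' (fun g => Units.mk0 (ψ (S g) / ψ₀ (S g)) (hq g)) (by
    intro g g'
    apply Units.ext
    change ψ (S (g * g')) / ψ₀ (S (g * g')) = ψ (S g) / ψ₀ (S g) * (ψ (S g') / ψ₀ (S g'))
    have hp : Pool.Agent.H95.CF.Pr K f (S g * S g') :=
      Pool.Agent.H37.CF.pr_mul.2 ⟨hS1 g, hS1 g'⟩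
    have hc : cl (S (g * g')) = cl (S g * S g') := by
      rw [hS2, hG.mul _ _ (hS1 g) (hS1 g'), hS2, hS2]
    rw [hwd _ _ (hS1 _) hp hc, h1.mul, h0.mul, mul_div_mul_comm])
  refine ⟨φ, fun I hI => ?_⟩
  change ψ I = ψ₀ I * (ψ (S (cl I)) / ψ₀ (S (cl I)))
  rw [hwd _ _ (hS1 (cl I)) hI (hS2 _), mul_div_cancel₀ _ (hn h0 I hI)]

end Pool.Agent.H48.FC
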