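import Pool.Agent.H95.FC.Targets

/-!
# Complete fourth moment (`MP_52e316_nt`), row EXL: the `L`-functions exist
-/

set_option autoImplicit false

open MeasureTheory Set Filter NumberField
open scoped Real nonZeroDivisors Matrix MatrixGroups

namespace Pool.Agent.H48.FC

open Pool.Agent.H31.CN Pool.Agent.H89.FM Pool.Agent.H61.FM Pool.Agent.H89.FC Pool.Agent.H95.FC

theorem exl_cpow (n D f : ℕ) (hD : 0 < D) (hf : 0 < f) (s : ℂ) :
    ((((n : ℝ) / (f * Real.sqrt D) : ℝ)) : ℂ) ^ (-s) =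
      (n : ℂ) ^ (-s) * ((f : ℂ) ^ 2 * D) ^ (s / 2) := by
  have hDr : (0 : ℝ) < D := by exact_mod_cast hD
  have hfr : (0 : ℝ) < f := by exact_mod_cast hf
  have hs : 0 < (f : ℝ) * Real.sqrt D := mul_pos hfr (Real.sqrt_pos.2 hDr)
  have h1 : ((((n : ℝ) / (f * Real.sqrt D) : ℝ)) : ℂ) =
      ((n : ℝ) : ℂ) * ((((f : ℝ) * Real.sqrt D)⁻¹ : ℝ) : ℂ) := by
    rw [← Complex.ofReal_mul, div_eq_mul_inv]
  rw [h1, Complex.mul_cpow_ofReal_nonneg (Nat.cast_nonneg n) (inv_pos.2 hs).le]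
  rw [Complex.ofReal_natCast]
  congr 1
  have h2 : ((((f : ℝ) * Real.sqrt D)⁻¹ : ℝ) : ℂ) ≠ 0 := by
    rw [Complex.ofReal_ne_zero]
    exact (inv_pos.2 hs).ne'
  have hq : (0 : ℝ) < (f : ℝ) ^ 2 * D := by positivity
  have h3 : (f : ℂ) ^ 2 * D = (((f : ℝ) ^ 2 * D : ℝ) : ℂ) := by
    push_cast
    rfl
  have h4 : (((f : ℝ) ^ 2 * D : ℝ) : ℂ) ≠ 0 := by
    rw [Complex.ofReal_ne_zero]
    exact hq.ne'
  have h5 : Real.log ((f : ℝ) ^ 2 * D) = 2 * Real.log ((f : ℝ) * Real.sqrt D) := by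
    rw [Real.log_mul (by positivity) hDr.ne', Real.log_pow,
      Real.log_mul hfr.ne' (Real.sqrt_pos.2 hDr).ne', Real.log_sqrt hDr.le]
    push_cast
    ring
  rw [h3, Complex.cpow_def_of_ne_zero h2, Complex.cpow_def_of_ne_zero h4,
    ← Complex.ofReal_log (inv_pos.2 hs).le, ← Complex.ofReal_log hq.le, Real.log_inv, h5]
  congr 1
  push_cast
  ring

theorem exl_div (Lam : ℂ → ℂ) (hL : Differentiable ℂ Lam) (m : ℤ) (h0 : m ≠ 0 → Lam 0 = 0) :
    ∃ G : ℂ → ℂ, Differentiable ℂ G ∧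
      ∀ s : ℂ, 1 < s.re → G s * (s * Complex.Gamma (s + (m.natAbs : ℕ))) = Lam s := by
  have hg : ∀ a : ℂ, Differentiable ℂ (fun s : ℂ => (Complex.Gamma (s + a))⁻¹) := by
    intro a s
    have h3 := Complex.differentiable_one_div_Gamma (s + a)
    exact DifferentiableAt.comp (g := fun z : ℂ => (Complex.Gamma z)⁻¹) (f := fun z : ℂ => z + a)
      s h3 (by fun_prop)
  by_cases hm : m = 0
  · refine ⟨fun s => (Complex.Gamma (s + 1))⁻¹ * Lam s, (hg 1).mul hL, fun s hs => ?_⟩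
    have hs0 : s ≠ 0 := by
      rintro rfl
      norm_num at hs
    have hG : Complex.Gamma s ≠ 0 := Complex.Gamma_ne_zero_of_re_pos (by linarith)
    change (Complex.Gamma (s + 1))⁻¹ * Lam s * (s * Complex.Gamma (s + (m.natAbs : ℕ))) = Lam s
    rw [hm, Int.natAbs_zero, Nat.cast_zero, add_zero, Complex.Gamma_add_one s hs0]
    field_simp
  · refine ⟨fun s => (Complex.Gamma (s + (m.natAbs : ℕ)))⁻¹ * dslope Lam 0 s,
      (hg _).mul ?_, fun s hs => ?_⟩
    · have h1 := (Complex.differentiableOn_dslope (c := (0 : ℂ)) (f := Lam)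
        (s := (Set.univ : Set ℂ)) Filter.univ_mem).2 hL.differentiableOn
      exact differentiableOn_univ.1 h1
    · have hG : Complex.Gamma (s + (m.natAbs : ℕ)) ≠ 0 := by
        refine Complex.Gamma_ne_zero_of_re_pos ?_
        rw [Complex.add_re, Complex.natCast_re]
        have : (0 : ℝ) ≤ (m.natAbs : ℕ) := Nat.cast_nonneg _
        linarith
      have h1 : (s - 0) • dslope Lam 0 s = Lam s - Lam 0 := sub_smul_dslope Lam 0 s
      rw [h0 hm, sub_zero, sub_zero, smul_eq_mul] at h1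
      change (Complex.Gamma (s + (m.natAbs : ℕ)))⁻¹ * dslope Lam 0 s *
        (s * Complex.Gamma (s + (m.natAbs : ℕ))) = Lam s
      rw [← h1]
      field_simp

open Classical in
theorem pf_EXLc (hRSS : Pool.Agent.H95.FC.T_RSS) (hDFX : Pool.Agent.H95.FC.T_DFX)
    (hEZA : Pool.Agent.H95.FC.T_EZAx) (hSUM : Pool.Agent.H95.FC.T_SUM)
    (hTWSc : Pool.Agent.H95.FC.T_TWSc) (hIOS : Pool.Agent.H95.FC.T_IOS)
    (hFRA : Pool.Agent.H95.FC.T_FRA) (hFLF : Pool.Agent.H95.FC.T_FLF)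
    (hQZV : Pool.Agent.H61.FM.T_QZV) (_hLC1 : Pool.Agent.H95.FC.T_LC1) : T_EXLc := by
  intro K _ _ σ D f m ψ hIQ hψ
  obtain ⟨R, rfl⟩ := hRSS K D σ hIQ
  have hf : 1 ≤ f := hψ.pos
  have hDpos : 0 < D := hIQ.pos
  obtain ⟨hun, b, T, W, hDF⟩ := hDFX K D f R hIQ hf
  have hq0 : (f : ℂ) ^ 2 * D ≠ 0 := by
    have h1 : (f : ℂ) ≠ 0 := by exact_mod_cast (Nat.pos_iff_ne_zero.1 hf)
    have h2 : (D : ℂ) ≠ 0 := by exact_mod_cast hDpos.ne'
    exact mul_ne_zero (pow_ne_zero 2 h1) h2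
  have hE : ∀ c, ∀ V ∈ T c, 0 < (R.Q c).1 ∧ 0 < dsc (R.Q c) ∧
      (Differentiable ℂ fun s : ℂ => Em m s 1 ⊤ (zx (fl f (R.Q c) V (W c V)))
        (zy (fl f (R.Q c) V (W c V)))) ∧
      (m ≠ 0 → Em m 0 1 ⊤ (zx (fl f (R.Q c) V (W c V))) (zy (fl f (R.Q c) V (W c V))) = 0) ∧
      ∀ s : ℂ, 1 < s.re → ∃ a : ℂ, HasSum (fun v : ℤ × ℤ =>
        if v ∈ (⊤ : AddSubgroup (ℤ × ℤ)) ∧ v ≠ 0 then
          an (zx (fl f (R.Q c) V (W c V))) (zy (fl f (R.Q c) V (W c V))) v ^ m *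
            (((qz (zx (fl f (R.Q c) V (W c V))) (zy (fl f (R.Q c) V (W c V))) v /
              (1 : ℕ) : ℝ)) : ℂ) ^ (-s) else 0) a ∧
        Em m s 1 ⊤ (zx (fl f (R.Q c) V (W c V))) (zy (fl f (R.Q c) V (W c V))) =
          gM m.natAbs s * a := by
    intro c V hVT
    have hQ1 : 0 < (R.Q c).1 := (R.fd c).1
    have hD0 : 0 < dsc (R.Q c) := by
      rw [(R.fd c).2]
      exact_mod_cast hDpos
    have hdet := (hDF.lt c).one V hVT
    have hfra := hFRA f (R.Q c) V (W c V) hf hdet hQ1 hD0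
    exact ⟨hQ1, hD0, hEZA m 1 ⊤ _ _ le_rfl AddSubgroup.index_top hfra.2.1⟩
  obtain ⟨Lam, hLam⟩ : ∃ Lam : ℂ → ℂ, Lam = fun s => (un K : ℂ)⁻¹ *
      ∑ c, ∑ V ∈ T c, ψ (b c V) * Em m s 1 ⊤ (zx (fl f (R.Q c) V (W c V)))
        (zy (fl f (R.Q c) V (W c V))) := ⟨_, rfl⟩
  have hLd : Differentiable ℂ Lam := by
    rw [hLam]
    refine Differentiable.const_mul ?_ _
    exact Differentiable.fun_sum fun c _ => Differentiable.fun_sum fun V hV =>
      ((hE c V hV).2.2.1).const_mul _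
  have hL0 : m ≠ 0 → Lam 0 = 0 := by
    intro hm
    rw [hLam]
    change (un K : ℂ)⁻¹ * ∑ c, ∑ V ∈ T c, ψ (b c V) * Em m 0 1 ⊤ _ _ = 0
    rw [Finset.sum_eq_zero, mul_zero]
    intro c _
    refine Finset.sum_eq_zero fun V hV => ?_
    rw [(hE c V hV).2.2.2.1 hm, mul_zero]
  obtain ⟨G, hGd, hG⟩ := exl_div Lam hLd m hL0
  refine ⟨fun s => (2 * (π : ℂ)) ^ (s + (m.natAbs : ℕ)) * G s /
    ((s - 1) * ((f : ℂ) ^ 2 * D) ^ (s / 2)), ?_, ?_⟩
  · -- holomorphy
    intro s hs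
    have h2p : (2 * (π : ℂ)) ≠ 0 :=
      mul_ne_zero two_ne_zero (Complex.ofReal_ne_zero.2 Real.pi_ne_zero)
    have h1 : DifferentiableAt ℂ (fun s : ℂ => (2 * (π : ℂ)) ^ (s + (m.natAbs : ℕ))) s :=
      DifferentiableAt.const_cpow (by fun_prop) (Or.inl h2p)
    have h3 : DifferentiableAt ℂ (fun s : ℂ => ((f : ℂ) ^ 2 * D) ^ (s / 2)) s :=
      DifferentiableAt.const_cpow (differentiableAt_id.div_const 2) (Or.inl hq0)
    refine DifferentiableAt.differentiableWithinAt ?_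
    refine (h1.mul (hGd s)).div ((differentiableAt_id.sub_const 1).mul h3) ?_
    refine mul_ne_zero (sub_ne_zero.2 hs) ?_
    rw [Complex.cpow_def_of_ne_zero hq0]
    exact Complex.exp_ne_zero _
  · -- the series
    intro s hs
    have hex : ∀ c V, ∃ a : ℂ, V ∈ T c → HasSum (fun v : ℤ × ℤ =>
        if v ∈ (⊤ : AddSubgroup (ℤ × ℤ)) ∧ v ≠ 0 then
          an (zx (fl f (R.Q c) V (W c V))) (zy (fl f (R.Q c) V (W c V))) v ^ m *
            (((qz (zx (fl f (R.Q c) V (W c V))) (zy (fl f (R.Q c) V (W c V))) v /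
              (1 : ℕ) : ℝ)) : ℂ) ^ (-s) else 0) a ∧
        Em m s 1 ⊤ (zx (fl f (R.Q c) V (W c V))) (zy (fl f (R.Q c) V (W c V))) =
          gM m.natAbs s * a := by
      intro c V
      by_cases hV : V ∈ T c
      · obtain ⟨a, ha⟩ := (hE c V hV).2.2.2.2 s hs
        exact ⟨a, fun _ => ha⟩
      · exact ⟨0, fun h => absurd h hV⟩
    choose a ha using hex
    have h3 : ∀ c, HasSum (fun J : (Ideal (𝓞 K))⁰ =>
        if ClassGroup.mk0 J = c⁻¹ then
          ψ J * ((((nm J : ℝ) / (f * Real.sqrt D) : ℝ)) : ℂ) ^ (-s) else 0)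
        ((∑ V ∈ T c, ψ (b c V) * a c V) / un K) := by
      intro c
      have hob := R.ob c
      have hQ1 : 0 < (R.Q c).1 := (R.fd c).1
      have hQd : dsc (R.Q c) = D := (R.fd c).2
      have hD0 : 0 < dsc (R.Q c) := by
        rw [hQd]
        exact_mod_cast hDpos
      have hV : ∀ V ∈ T c, HasSum (fun u : ℤ × ℤ =>
          if u ∈ (⊤ : AddSubgroup (ℤ × ℤ)) ∧ (f : ℤ) ∣ det V u ∧ u ≠ 0 then
          an (zx (R.Q c)) (zy (R.Q c)) u ^ m *
            (fun r : ℝ => ((r / (f * Real.sqrt D) : ℝ) : ℂ) ^ (-s)) (val (R.Q c) u)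
          else 0)
          (an (zx (R.Q c)) (zy (R.Q c)) V ^ m * a c V) := by
        intro V hVT
        have hdet := (hDF.lt c).one V hVT
        have hflf := hFLF f (R.Q c) V (W c V) hf hdet
        have hfd := hflf.2.2.1 D hDpos (R.fd c)
        have hfl1 : 0 < (fl f (R.Q c) V (W c V)).1 := hfd.1
        have hfl2 : dsc (fl f (R.Q c) V (W c V)) = ((D * f ^ 2 : ℕ) : ℤ) := hfd.2
        have hfl0 : 0 < dsc (fl f (R.Q c) V (W c V)) := by
          rw [hfl2]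
          have : 0 < D * f ^ 2 := by positivity
          exact_mod_cast this
        have hsq : Real.sqrt (dsc (fl f (R.Q c) V (W c V)) : ℝ) = f * Real.sqrt D := by
          rw [hfl2]
          push_cast
          rw [mul_comm, Real.sqrt_mul (by positivity), Real.sqrt_sq (by positivity)]
        have h4 := (ha c V hVT).1
        have e : (fun v : ℤ × ℤ => if v ∈ (⊤ : AddSubgroup (ℤ × ℤ)) ∧ v ≠ 0 then
            an (zx (fl f (R.Q c) V (W c V))) (zy (fl f (R.Q c) V (W c V))) v ^ m *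
              (((qz (zx (fl f (R.Q c) V (W c V)))
                (zy (fl f (R.Q c) V (W c V))) v / (1 : ℕ) : ℝ)) : ℂ) ^ (-s) else 0) =
            fun v : ℤ × ℤ => if v ≠ 0 then
              an (zx (fl f (R.Q c) V (W c V))) (zy (fl f (R.Q c) V (W c V))) v ^ m *
              (fun r : ℝ => ((r / (f * Real.sqrt D) : ℝ) : ℂ) ^ (-s))
                (val (fl f (R.Q c) V (W c V)) v) else 0 := by
          funext v
          by_cases hv : v = 0
          · rw [if_neg (fun h => h.2 hv), if_neg (fun h => h hv)]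
          · rw [if_pos ⟨AddSubgroup.mem_top v, hv⟩, if_pos hv, Nat.cast_one, div_one,
              (hQZV _ v hfl1 hfl0).2, hsq]
        rw [e] at h4
        have h5 := hIOS m f (R.Q c) V (W c V)
          (fun r : ℝ => ((r / (f * Real.sqrt D) : ℝ) : ℂ) ^ (-s)) _ hf hdet hQ1 hD0 h4
        have e2 : (fun u : ℤ × ℤ => if u ∈ (⊤ : AddSubgroup (ℤ × ℤ)) ∧ (f : ℤ) ∣ det V u ∧ u ≠ 0
            then an (zx (R.Q c)) (zy (R.Q c)) u ^ m *
            (fun r : ℝ => ((r / (f * Real.sqrt D) : ℝ) : ℂ) ^ (-s)) (val (R.Q c) u)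
            else 0) =
            fun u : ℤ × ℤ => if (f : ℤ) ∣ det V u ∧ u ≠ 0
            then an (zx (R.Q c)) (zy (R.Q c)) u ^ m *
            (fun r : ℝ => ((r / (f * Real.sqrt D) : ℝ) : ℂ) ^ (-s)) (val (R.Q c) u)
            else 0 := by
          funext u
          by_cases hu : (f : ℤ) ∣ det V u ∧ u ≠ 0
          · rw [if_pos hu, if_pos ⟨AddSubgroup.mem_top u, hu⟩]
          · rw [if_neg hu, if_neg (fun h => hu h.2)]
        rw [e2]
        exact h5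
      have h6 := hSUM K R.σ D f m ψ (R.I c) (R.α c) (R.β c) (R.Q c) (b c) (T c) (W c) hDpos
        (R.fd c) hob (hDF.vb c) (hDF.lt c) hψ ⊤
        (fun r : ℝ => ((r / (f * Real.sqrt D) : ℝ) : ℂ) ^ (-s))
        (fun V => an (zx (R.Q c)) (zy (R.Q c)) V ^ m * a c V) hV
      have h7 : (∑ V ∈ T c, ψ (b c V) * an (zx (R.Q c)) (zy (R.Q c)) V ^ (-m) *
          (an (zx (R.Q c)) (zy (R.Q c)) V ^ m * a c V)) =
          ∑ V ∈ T c, ψ (b c V) * a c V := by
        refine Finset.sum_congr rfl fun V hVT => ?_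
        have hdet := (hDF.lt c).one V hVT
        have hfra := hFRA f (R.Q c) V (W c V) hf hdet hQ1 hD0
        have hV0 : V ≠ 0 := by
          intro h
          rw [h] at hdet
          simp [det] at hdet
        have hn := hfra.2.2.1 V hV0
        have hne : an (zx (R.Q c)) (zy (R.Q c)) V ≠ 0 := by
          intro h
          rw [h, norm_zero] at hn
          exact zero_ne_one hn
        rw [zpow_neg, mul_assoc, ← mul_assoc (_⁻¹), inv_mul_cancel₀ (zpow_ne_zero m hne), one_mul]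
      rw [h7] at h6
      have hnm : nm (1 : (Ideal (𝓞 K))⁰) = 1 := by
        unfold nm
        simp
      have hmem : ∀ v : ℤ × ℤ, v ∈ lt K (R.α c) (R.β c)
          (((1 : (Ideal (𝓞 K))⁰) : Ideal (𝓞 K)) * (R.I c : Ideal (𝓞 K))) := by
        intro v
        rw [Submonoid.coe_one, one_mul]
        exact (hob.mem _).mpr ⟨v, rfl⟩
      have e : (fun v : ℤ × ℤ => if v ∈ lt K (R.α c) (R.β c)
          (((1 : (Ideal (𝓞 K))⁰) : Ideal (𝓞 K)) * (R.I c : Ideal (𝓞 K))) ∧ v ≠ 0 then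
          ψ (b c v) * (fun r : ℝ => ((r / (f * Real.sqrt D) : ℝ) : ℂ) ^ (-s))
            ((val (R.Q c) v : ℝ) / nm (1 : (Ideal (𝓞 K))⁰)) else 0) =
          fun v : ℤ × ℤ => if v ∈ (⊤ : AddSubgroup (ℤ × ℤ)) ∧ v ≠ 0 then
          ψ (b c v) * (fun r : ℝ => ((r / (f * Real.sqrt D) : ℝ) : ℂ) ^ (-s))
            (val (R.Q c) v) else 0 := by
        funext v
        by_cases hv : v = 0
        · rw [if_neg (fun h => h.2 hv), if_neg (fun h => h.2 hv)]
        · rw [if_pos ⟨hmem v, hv⟩, if_pos ⟨AddSubgroup.mem_top v, hv⟩, hnm, Nat.cast_one, div_one]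
      have h8 := hTWSc K D R.σ hIQ (R.I c) 1 (R.α c) (R.β c) (R.Q c) (b c) ψ hob (hDF.vb c)
        hψ.mul (fun r : ℝ => ((r / (f * Real.sqrt D) : ℝ) : ℂ) ^ (-s)) _ (by
          rw [e]
          exact h6)
      rw [map_one, mul_one, R.cl] at h8
      have e3 : (fun J : (Ideal (𝓞 K))⁰ => if ClassGroup.mk0 J = c⁻¹ then
          ψ ((1 : (Ideal (𝓞 K))⁰) : Ideal (𝓞 K)) * ψ J *
            (fun r : ℝ => ((r / (f * Real.sqrt D) : ℝ) : ℂ) ^ (-s)) (nm J) else 0) =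
          fun J : (Ideal (𝓞 K))⁰ => if ClassGroup.mk0 J = c⁻¹ then
          ψ J * ((((nm J : ℝ) / (f * Real.sqrt D) : ℝ)) : ℂ) ^ (-s) else 0 := by
        funext J
        rw [Submonoid.coe_one, Ideal.one_eq_top, hψ.one, one_mul]
      rw [e3] at h8
      exact h8
    have h6 : HasSum (fun J : (Ideal (𝓞 K))⁰ => ∑ c : ClassGroup (𝓞 K),
        (if ClassGroup.mk0 J = c⁻¹ then
          ψ J * ((((nm J : ℝ) / (f * Real.sqrt D) : ℝ)) : ℂ) ^ (-s) else 0))
        (∑ c, ((∑ V ∈ T c, ψ (b c V) * a c V) / un K)) :=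
      hasSum_sum fun c _ => h3 c
    obtain ⟨A, hA⟩ : ∃ A, A = ∑ c, ((∑ V ∈ T c, ψ (b c V) * a c V) / (un K : ℂ)) := ⟨_, rfl⟩
    rw [← hA] at h6
    have e1 : (fun J : (Ideal (𝓞 K))⁰ => ∑ c : ClassGroup (𝓞 K),
        (if ClassGroup.mk0 J = c⁻¹ then
          ψ J * ((((nm J : ℝ) / (f * Real.sqrt D) : ℝ)) : ℂ) ^ (-s) else 0)) =
        fun J : (Ideal (𝓞 K))⁰ => ψ J * (Ideal.absNorm (J : Ideal (𝓞 K)) : ℂ) ^ (-s) *
          ((f : ℂ) ^ 2 * D) ^ (s / 2) := by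
      funext J
      rw [Finset.sum_eq_single (ClassGroup.mk0 J)⁻¹]
      · rw [inv_inv, if_pos rfl, exl_cpow (nm J) D f hDpos hf s, mul_assoc]
        rfl
      · intro c _ hc
        rw [if_neg]
        intro h
        apply hc
        rw [h, inv_inv]
      · intro h
        exact absurd (Finset.mem_univ _) h
    rw [e1] at h6
    have hDs : ((f : ℂ) ^ 2 * D) ^ (s / 2) ≠ 0 := by
      rw [Complex.cpow_def_of_ne_zero hq0]
      exact Complex.exp_ne_zero _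
    have h7 := h6.div_const (((f : ℂ) ^ 2 * D) ^ (s / 2))
    have e2 : (fun J : (Ideal (𝓞 K))⁰ => ψ J * (Ideal.absNorm (J : Ideal (𝓞 K)) : ℂ) ^ (-s) *
          ((f : ℂ) ^ 2 * D) ^ (s / 2) / ((f : ℂ) ^ 2 * D) ^ (s / 2)) =
        fun J : (Ideal (𝓞 K))⁰ => ψ J * (Ideal.absNorm (J : Ideal (𝓞 K)) : ℂ) ^ (-s) := by
      funext J
      exact mul_div_cancel_right₀ _ hDs
    rw [e2] at h7
    have hval : (2 * (π : ℂ)) ^ (s + (m.natAbs : ℕ)) * G s /
        ((s - 1) * ((f : ℂ) ^ 2 * D) ^ (s / 2)) = A / ((f : ℂ) ^ 2 * D) ^ (s / 2) := by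
      have hL : Lam s = gM m.natAbs s * A := by
        rw [hLam, hA]
        change (un K : ℂ)⁻¹ * ∑ c, ∑ V ∈ T c, ψ (b c V) * Em m s 1 ⊤ _ _ = _
        rw [Finset.mul_sum, Finset.mul_sum]
        refine Finset.sum_congr rfl fun c _ => ?_
        have h8 : ∑ V ∈ T c, ψ (b c V) * Em m s 1 ⊤ (zx (fl f (R.Q c) V (W c V)))
            (zy (fl f (R.Q c) V (W c V))) = gM m.natAbs s * ∑ V ∈ T c, ψ (b c V) * a c V := by
          rw [Finset.mul_sum]
          refine Finset.sum_congr rfl fun V hV => ?_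
          rw [(ha c V hV).2]
          ring
        rw [h8]
        ring
      have hs0 : s ≠ 0 := by
        rintro rfl
        norm_num at hs
      have hs1 : s - 1 ≠ 0 := by
        intro h
        have h1 : s = 1 := by linear_combination h
        rw [h1] at hs
        norm_num at hs
      have hGa : Complex.Gamma (s + (m.natAbs : ℕ)) ≠ 0 := by
        refine Complex.Gamma_ne_zero_of_re_pos ?_
        rw [Complex.add_re, Complex.natCast_re]
        have : (0 : ℝ) ≤ (m.natAbs : ℕ) := Nat.cast_nonneg _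
        linarith
      have h2p : (2 * (π : ℂ)) ≠ 0 :=
        mul_ne_zero two_ne_zero (Complex.ofReal_ne_zero.2 Real.pi_ne_zero)
      have hpp : (2 * (π : ℂ)) ^ (s + (m.natAbs : ℕ)) * (2 * (π : ℂ)) ^ (-(s + (m.natAbs : ℕ))) =
          1 := by
        rw [← Complex.cpow_add _ _ h2p, add_neg_cancel, Complex.cpow_zero]
      have h9 := hG s hs
      rw [hL] at h9
      unfold gM at h9
      have h10 : G s = (s - 1) * (2 * (π : ℂ)) ^ (-(s + (m.natAbs : ℕ))) * A := by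
        have hne : s * Complex.Gamma (s + (m.natAbs : ℕ)) ≠ 0 := mul_ne_zero hs0 hGa
        refine mul_right_cancel₀ hne ?_
        rw [h9]
        ring
      rw [h10, div_eq_div_iff (mul_ne_zero hs1 hDs) hDs]
      have e5 : (2 * (π : ℂ)) ^ (s + (m.natAbs : ℕ)) *
          ((s - 1) * (2 * (π : ℂ)) ^ (-(s + (m.natAbs : ℕ))) * A) =
          ((2 * (π : ℂ)) ^ (s + (m.natAbs : ℕ)) * (2 * (π : ℂ)) ^ (-(s + (m.natAbs : ℕ)))) *
            ((s - 1) * A) := by
        ring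
      rw [e5, hpp]
      ring
    change HasSum _ ((2 * (π : ℂ)) ^ (s + (m.natAbs : ℕ)) * G s /
        ((s - 1) * ((f : ℂ) ^ 2 * D) ^ (s / 2)))
    rw [hval]
    exact h7

end Pool.Agent.H48.FC
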