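import Pool.Agent.H95.FC.Targets

/-!
# Complete fourth moment (`MP_52e316_nt`), row GCB: the number of the classes
-/

set_option autoImplicit false

open MeasureTheory Set Filter NumberField
open scoped Real nonZeroDivisors Matrix MatrixGroups

namespace Pool.Agent.H48.FC

open Pool.Agent.H31.CN Pool.Agent.H89.FM Pool.Agent.H61.FM Pool.Agent.H89.FC Pool.Agent.H95.FC

theorem pf_GCB (hGSU : Pool.Agent.H95.FC.T_GSU) (hTCB : Pool.Agent.H95.FC.T_TCB)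
    (hRSS : Pool.Agent.H95.FC.T_RSS) (hDFX : Pool.Agent.H95.FC.T_DFX) (hHBD : T_HBD) :
    Pool.Agent.H95.FC.T_GCB := by
  intro ε hε
  obtain ⟨C, hC, h1⟩ := hHBD ε hε
  obtain ⟨C1, hC1, h2⟩ := hTCB (2 * ε) (by linarith)
  refine ⟨C * C1, by positivity, ?_⟩
  intro K _ _ D f G _ _ cl hD hf hG
  obtain ⟨σ⟩ : Nonempty (K →+* ℂ) := inferInstance
  obtain ⟨R, -⟩ := hRSS K D σ hD
  obtain ⟨-, b, T, W, hDF⟩ := hDFX K D f R hD hf
  have h3 := hGSU K D f hD hf R b T W hDF G cl hG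
  have hf1 : (1 : ℝ) ≤ f := by exact_mod_cast hf
  have hf0 : (0 : ℝ) ≤ f := by linarith
  have hD0 : (0 : ℝ) ≤ D := Nat.cast_nonneg D
  have h4 : (Nat.card G : ℝ) ≤ ∑ c, ((T c).card : ℝ) := by exact_mod_cast h3
  have h5 : ∑ c, ((T c).card : ℝ) ≤
      ∑ _c : ClassGroup (𝓞 K), C1 * (f : ℝ) ^ (1 + 2 * ε) :=
    Finset.sum_le_sum fun c _ => h2 f (R.Q c) (T c) (W c) hf (hDF.lt c)
  rw [Finset.sum_const, nsmul_eq_mul, Finset.card_univ] at h5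
  have h6 : (f : ℝ) ^ (1 + 2 * ε) = ((f : ℝ) ^ 2) ^ (1 / 2 + ε) := by
    rw [← Real.rpow_natCast, ← Real.rpow_mul hf0]
    congr 1
    push_cast
    ring
  have h7 := (h1 K D hD).1
  have h8 : ((D : ℝ) * (f : ℝ) ^ 2) ^ (1 / 2 + ε) =
      (D : ℝ) ^ (1 / 2 + ε) * ((f : ℝ) ^ 2) ^ (1 / 2 + ε) :=
    Real.mul_rpow hD0 (by positivity)
  calc (Nat.card G : ℝ) ≤ (Fintype.card (ClassGroup (𝓞 K)) : ℝ) *
        (C1 * (f : ℝ) ^ (1 + 2 * ε)) := h4.trans h5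
    _ ≤ (C * (D : ℝ) ^ (1 / 2 + ε)) * (C1 * (f : ℝ) ^ (1 + 2 * ε)) :=
        mul_le_mul_of_nonneg_right h7 (by positivity)
    _ = C * C1 * ((D : ℝ) * (f : ℝ) ^ 2) ^ (1 / 2 + ε) := by
        rw [h8, h6]
        ring

end Pool.Agent.H48.FC
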