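import Pool.Agent.H48.FC.RSB

/-! Module CLB of the board `fc_modules`: smallness of the set of possible restrictions. -/

namespace Pool.Agent.H48.FC.CLB

open Set Pool.Agent.H9.FC

variable {Ω : Type} [LinearOrder Ω]

omit [LinearOrder Ω] in
/-- finitely many functions can be decided -/
theorem dec_fin {α ι : Type} {Q : Set (Set (Pt Ω))} (T : Finset ι) (f : ι → Pt Ω → α)
    (h : ∀ u ∈ T, Dec Q (f u)) : ∀ U ∈ Q, ∃ V ∈ Q, V ⊆ U ∧ ∀ u ∈ T, ∃ c, ∀ x ∈ V, f u x = c := by
  classical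
  induction T using Finset.induction_on with
  | empty => intro U hU; exact ⟨U, hU, subset_rfl, by simp⟩
  | insert a T ha ih =>
    intro U hU
    obtain ⟨V, hV, hVU, h1⟩ := ih (fun u hu => h u (Finset.mem_insert_of_mem hu)) U hU
    obtain ⟨W, hW, hWV, c, hc⟩ := h a (Finset.mem_insert_self _ _) V hV
    refine ⟨W, hW, hWV.trans hVU, fun u hu => ?_⟩
    rcases Finset.mem_insert.1 hu with rfl | hu
    · exact ⟨c, hc⟩
    · obtain ⟨c', hc'⟩ := h1 u hu
      exact ⟨c', fun x hx => hc' x (hWV hx)⟩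

theorem w_le_succ (p : Par) (l i : ℕ) : p.w l i ≤ p.w (l + 1) i := by
  have := p.w_succ l i
  omega

theorem w_le_of_le (p : Par) {l l' : ℕ} (h : l ≤ l') (i : ℕ) : p.w l i ≤ p.w l' i := by
  induction l', h using Nat.le_induction with
  | base => exact le_rfl
  | succ k _ ih => exact ih.trans (w_le_succ p k i)

/-- the union of several names -/
noncomputable def uni (p : Par) (l : ℕ) (T : Finset (List ℕ)) (φ : List ℕ → Pt Ω → ℕ → Finset ℕ)
    (x : Pt Ω) (i : ℕ) : Finset ℕ :=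
  if (T.biUnion fun u => φ u x i).card ≤ p.w l i then T.biUnion fun u => φ u x i else ∅

theorem isName_uni (p : Par) {Q : Set (Set (Pt Ω))} {γ : Ω} {l : ℕ} (T : Finset (List ℕ))
    (φ : List ℕ → Pt Ω → ℕ → Finset ℕ) (h : ∀ u ∈ T, IsName p Q γ l (φ u)) (l' : ℕ) :
    IsName p Q γ l' (uni p l' T φ) := by
  refine ⟨fun x i => ?_, fun x x' hx => ?_, fun i U hU => ?_⟩
  · unfold uni
    split_ifs with h1
    · refine ⟨Finset.biUnion_subset.2 fun u hu => ((h u hu).1 x i).1, h1⟩
    · simp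
  · funext i
    have : (T.biUnion fun u => φ u x i) = T.biUnion fun u => φ u x' i := by
      refine Finset.biUnion_congr rfl fun u hu => ?_
      rw [(h u hu).2.1 x x' hx]
    unfold uni
    rw [this]
  · obtain ⟨V, hV, hVU, h1⟩ := dec_fin T (fun u x => φ u x i) (fun u hu => (h u hu).2.2 i) U hU
    refine ⟨V, hV, hVU, ?_⟩
    rcases V.eq_empty_or_nonempty with rfl | ⟨x₀, hx₀⟩
    · exact ⟨∅, by simp⟩
    · refine ⟨uni p l' T φ x₀ i, fun x hx => ?_⟩
      have : (T.biUnion fun u => φ u x i) = T.biUnion fun u => φ u x₀ i := by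
        refine Finset.biUnion_congr rfl fun u hu => ?_
        obtain ⟨c, hc⟩ := h1 u hu
        rw [hc x hx, hc x₀ hx₀]
      show uni p l' T φ x i = _
      unfold uni
      rw [this]

theorem pf_CLB (hPIG : T_PIG) (hBAS : T_BAS) : T_CLB := by
  classical
  intro p Ω _ _ β γ m y s l n d hγβ hy hs hls hmn V hV hKK S hS hLL hbig
  choose! φ hN hR using hLL
  -- decide the values below `n + d`
  obtain ⟨V', hV', hV'V, hdec⟩ := dec_fin (S ×ˢ Finset.range (n + d))
    (fun q : List ℕ × ℕ => fun x : Pt Ω => φ q.1 x q.2)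
    (fun q hq => (hN q.1 (Finset.mem_product.1 hq).1).2.2 q.2) V hV
  obtain ⟨x₀, hx₀⟩ := (hBAS p Ω).2.2.2.1 γ V' hV'
  have hval : ∀ u ∈ S, ∀ i < n + d, ∀ x ∈ V', φ u x i = φ u x₀ i := by
    intro u hu i hi x hx
    obtain ⟨c, hc⟩ := hdec (u, i) (Finset.mem_product.2 ⟨hu, Finset.mem_range.2 hi⟩)
    exact (hc x hx).trans (hc x₀ hx₀).symm
  obtain ⟨T', hT'S, hT'b, hT'c, hT'i⟩ := hPIG p m n d (↑S)
    (fun u i => if u ∈ S ∧ i < n + d then φ u x₀ i else ∅) (by
      intro u i
      split_ifs with h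
      · exact ((hN u h.1).1 x₀ i).1
      · simp) hbig
  have hT'S' : ∀ u ∈ T', u ∈ S := fun u hu => hT'S hu
  -- the union of the names is small on `V'`
  have hsmall : ∀ x ∈ V', ∀ i, (T'.biUnion fun u => φ u x i).card ≤ p.w (l + 1) i := by
    intro x hx i
    rcases lt_or_ge i (n + d) with hi | hi
    · have e1 : (T'.biUnion fun u => φ u x i) =
          (T'.image fun u => if u ∈ S ∧ i < n + d then φ u x₀ i else ∅).biUnion id := by
        rw [Finset.image_biUnion]
        refine Finset.biUnion_congr rfl fun u hu => ?_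
        rw [hval u (hT'S' u hu) i hi x hx]
        simp [hT'S' u hu, hi]
      have h1 : (T'.biUnion fun u => φ u x i).card ≤
          (T'.image fun u => if u ∈ S ∧ i < n + d then φ u x₀ i else ∅).card * p.w l i := by
        rw [e1]
        refine Finset.card_biUnion_le_card_mul _ _ _ fun v hv => ?_
        obtain ⟨u, hu, rfl⟩ := Finset.mem_image.1 hv
        simp only [id]
        rw [if_pos ⟨hT'S' u hu, hi⟩]
        exact ((hN u (hT'S' u hu)).1 x₀ i).2
      have h2 := Nat.mul_le_mul_right (p.w l i) (hT'i i)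
      have h3 : min i (n + d) = i := min_eq_left hi.le
      rw [h3] at h2
      refine h1.trans (h2.trans ?_)
      rcases le_or_gt n i with hni | hni
      · exact p.e_w m n i l hmn hni
      · rw [Finset.Ico_eq_empty (by omega), Finset.prod_empty, one_mul]
        exact w_le_succ p l i
    · have h1 : (T'.biUnion fun u => φ u x i).card ≤ T'.card * p.w l i :=
        Finset.card_biUnion_le_card_mul _ _ _ fun u hu => ((hN u (hT'S' u hu)).1 x i).2
      have h2 := Nat.mul_le_mul_right (p.w l i) hT'c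
      have h3 : ∏ k ∈ Finset.Ico n (n + d), p.e m k ≤ ∏ k ∈ Finset.Ico n i, p.e m k :=
        Finset.prod_le_prod_of_subset_of_one_le' (Finset.Ico_subset_Ico_right hi)
          (fun k _ _ => RSB.e_pos p m k)
      exact h1.trans (h2.trans ((Nat.mul_le_mul_right _ h3).trans
        (p.e_w m n i l hmn (by omega))))
  have hname : IsName p (PP p γ) γ (l + 1) (uni p (l + 1) T' φ) :=
    isName_uni p T' φ (fun u hu => hN u (hT'S' u hu)) (l + 1)
  obtain ⟨R, hRβ, hRsub, c, hc, hcd⟩ := hKK V' hV' hV'V _ hname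
  obtain ⟨t₀, ht₀⟩ := (hBAS p Ω).2.2.2.1 β R hRβ
  have hyt := hy.1 t₀ n
  rw [hc t₀ ht₀] at hyt
  have hmem : ∀ u ∈ T', (u.drop (c.1 - n)).take c.2.1 ∈ c.2.2 := by
    intro u hu
    refine hR u (hT'S' u hu) R hRβ (fun t ht => ?_) c hc hcd
    obtain ⟨h1, h2, h3⟩ := hRsub ht
    refine ⟨hV'V h1, h2, fun i hi v hv => h3 i hi ?_⟩
    unfold uni
    rw [if_pos (hsmall t h1 i)]
    exact Finset.mem_biUnion.2 ⟨u, hu, hv⟩
  refine hyt.2 (RSB.pf_BGM p m c.1 c.2.1 _ _ ?_
    (RSB.pf_RSB p m n d c.1 c.2.1 _ hyt.1 hcd hT'b))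
  rintro r ⟨u, hu, rfl⟩
  exact hmem u hu

end Pool.Agent.H48.FC.CLB
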