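import Pool.Agent.H89.FC.TargetsN

/-!
# Complete fourth moment (`MP_52e316_nt`), row NTR: the trivial bound for the `L`-function
-/

set_option autoImplicit false

open MeasureTheory Set Filter NumberField
open scoped Real nonZeroDivisors

namespace Pool.Agent.H48.FC

open Pool.Agent.H31.CN Pool.Agent.H89.FM Pool.Agent.H61.FM Pool.Agent.H89.FC

theorem int_xe {b : ℝ} (hb : 0 < b) :
    IntegrableOn (fun x : ℝ => x * Real.exp (-(b * x))) (Ioi 0) ∧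
      ∫ x in Ioi (0 : ℝ), x * Real.exp (-(b * x)) = 1 / b ^ 2 := by
  have h1 := Real.integral_rpow_mul_exp_neg_mul_Ioi (a := 2) (r := b) two_pos hb
  have h2 : (2 : ℝ) - 1 = 1 := by norm_num
  rw [h2] at h1
  simp only [Real.rpow_one] at h1
  have h3 : Real.Gamma 2 = 1 := Real.Gamma_two
  rw [h3, mul_one, Real.rpow_two, div_pow, one_pow] at h1
  refine ⟨?_, h1⟩
  by_contra h
  have h4 := integral_undef h
  rw [h1] at h4
  have : (0 : ℝ) < 1 / b ^ 2 := by positivity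
  linarith

theorem pf_TRBc (hPBD : T_PBDc) (hSPT : T_SPTc) : T_TRBc := by
  obtain ⟨C, k, c, hC, hc, h⟩ := hPBD
  obtain ⟨C', hC', h'⟩ := hSPT
  refine ⟨C * (C' / c ^ 2), k + 2, by positivity, ?_⟩
  intro K _ _ σ D f m ψ F hD hψ hF s hs
  obtain ⟨h1, h2⟩ := h K σ D f m ψ F hD hψ hF s (1 / 8) hs le_rfl
  obtain ⟨hm, hb⟩ := h' K σ D f m ψ hD hψ
  have hD1 : (1 : ℝ) ≤ D := by
    exact_mod_cast hD.pos
  have hD0 : (0 : ℝ) < D := by linarith
  have hf1 : (1 : ℝ) ≤ f := by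
    exact_mod_cast hψ.pos
  have hf0 : (0 : ℝ) < f := by linarith
  have hq1 : (1 : ℝ) ≤ (D : ℝ) * (f : ℝ) ^ 2 := by
    have e0 : (1 : ℝ) ≤ (f : ℝ) ^ 2 := one_le_pow₀ hf1
    nlinarith
  have hq0 : (0 : ℝ) < (D : ℝ) * (f : ℝ) ^ 2 := by linarith
  set T := 1 + |s.im| + |(m : ℝ)| with hT
  have hT1 : 1 ≤ T := by
    have := abs_nonneg s.im
    have := abs_nonneg (m : ℝ)
    linarith
  have hT0 : 0 < T := by linarith
  have hsq : 0 < (f : ℝ) * Real.sqrt D := mul_pos hf0 (Real.sqrt_pos.2 hD0)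
  set b := c / (f * Real.sqrt D * T) with hbdef
  have hb0 : 0 < b := by positivity
  obtain ⟨hi, hv⟩ := int_xe hb0
  have h3 : ∫ x in Ioi (1 : ℝ), ‖Sc ψ x‖ * x ^ (-(3 / 2) + 1 / 8 : ℝ) *
      Real.exp (-(c * x / (f * Real.sqrt D * T))) ≤
      ∫ x in Ioi (1 : ℝ), C' * (x * Real.exp (-(b * x))) := by
    refine setIntegral_mono_on h1 ((hi.mono_set (Ioi_subset_Ioi zero_le_one)).const_mul C')
      measurableSet_Ioi fun x hx => ?_
    have hx1 : 1 < x := hx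
    have hx0 : 0 < x := by linarith
    have e1 : c * x / (f * Real.sqrt D * T) = b * x := by
      rw [hbdef]
      ring
    rw [e1]
    have e2 : x ^ 2 * x ^ (-(3 / 2) + 1 / 8 : ℝ) ≤ x := by
      have e3 : x ^ 2 * x ^ (-(3 / 2) + 1 / 8 : ℝ) = x ^ (5 / 8 : ℝ) := by
        rw [← Real.rpow_two, ← Real.rpow_add hx0]
        norm_num
      rw [e3]
      calc x ^ (5 / 8 : ℝ) ≤ x ^ (1 : ℝ) := Real.rpow_le_rpow_of_exponent_le hx1.le (by norm_num)
        _ = x := Real.rpow_one x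
    have e4 : 0 ≤ x ^ (-(3 / 2) + 1 / 8 : ℝ) := Real.rpow_nonneg hx0.le _
    calc ‖Sc ψ x‖ * x ^ (-(3 / 2) + 1 / 8 : ℝ) * Real.exp (-(b * x))
        ≤ (C' * x ^ 2) * x ^ (-(3 / 2) + 1 / 8 : ℝ) * Real.exp (-(b * x)) :=
          mul_le_mul_of_nonneg_right (mul_le_mul_of_nonneg_right (hb x hx1.le) e4)
            (Real.exp_nonneg _)
      _ = C' * (x ^ 2 * x ^ (-(3 / 2) + 1 / 8 : ℝ)) * Real.exp (-(b * x)) := by ring
      _ ≤ C' * x * Real.exp (-(b * x)) :=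
          mul_le_mul_of_nonneg_right (mul_le_mul_of_nonneg_left e2 hC'.le) (Real.exp_nonneg _)
      _ = C' * (x * Real.exp (-(b * x))) := by ring
  have h4 : ∫ x in Ioi (1 : ℝ), C' * (x * Real.exp (-(b * x))) ≤ C' * (1 / b ^ 2) := by
    rw [integral_const_mul, ← hv]
    refine mul_le_mul_of_nonneg_left ?_ hC'.le
    refine setIntegral_mono_set hi ?_ (Ioi_subset_Ioi zero_le_one).eventuallyLE
    rw [EventuallyLE, ae_restrict_iff' measurableSet_Ioi]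
    refine Filter.Eventually.of_forall fun x hx => ?_
    have hx0 : 0 < x := hx
    show 0 ≤ x * Real.exp (-(b * x))
    positivity
  have h5 : C' * (1 / b ^ 2) = C' / c ^ 2 * (((D : ℝ) * (f : ℝ) ^ 2) * T ^ 2) := by
    have e5 : Real.sqrt D ^ 2 = D := Real.sq_sqrt hD0.le
    rw [hbdef, div_pow, mul_pow, mul_pow, e5]
    field_simp
  have h6 : ((D : ℝ) * (f : ℝ) ^ 2) ^ (1 / 8 : ℝ) ≤ (D : ℝ) * (f : ℝ) ^ 2 := by
    calc ((D : ℝ) * (f : ℝ) ^ 2) ^ (1 / 8 : ℝ) ≤ ((D : ℝ) * (f : ℝ) ^ 2) ^ (1 : ℝ) :=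
          Real.rpow_le_rpow_of_exponent_le hq1 (by norm_num)
      _ = (D : ℝ) * (f : ℝ) ^ 2 := Real.rpow_one _
  have h7 := (h3.trans h4).trans_eq h5
  calc ‖F s‖ ≤ C * T ^ k * ((D : ℝ) * (f : ℝ) ^ 2) ^ (1 / 8 : ℝ) *
        ∫ x in Ioi (1 : ℝ), ‖Sc ψ x‖ * x ^ (-(3 / 2) + 1 / 8 : ℝ) *
          Real.exp (-(c * x / (f * Real.sqrt D * T))) := h2
    _ ≤ C * T ^ k * ((D : ℝ) * (f : ℝ) ^ 2) *
          (C' / c ^ 2 * (((D : ℝ) * (f : ℝ) ^ 2) * T ^ 2)) := by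
        refine mul_le_mul ?_ h7 ?_ (by positivity)
        · exact mul_le_mul_of_nonneg_left h6 (by positivity)
        · refine setIntegral_nonneg measurableSet_Ioi fun x hx => ?_
          have hx0 : 0 < x := lt_trans one_pos hx
          positivity
    _ = C * (C' / c ^ 2) * T ^ (k + 2) * ((D : ℝ) * (f : ℝ) ^ 2) ^ 2 := by
        rw [pow_add]
        ring

end Pool.Agent.H48.FC
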