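import Pool.Agent.H9.FC.TB

/-! Module RSB of the board `fc_modules`: restriction of trees to a subinterval. -/

namespace Pool.Agent.H48.FC.RSB

open Set Pool.Agent.H9.FC

theorem e_pos (p : Par) (m k : ℕ) : 1 ≤ p.e m k := by
  induction m with
  | zero => exact le_trans (by norm_num) (p.e_two k)
  | succ m ih =>
    refine le_trans ?_ (p.e_succ m k)
    have h : 1 ≤ ∏ i ∈ Finset.range (k + 1), 2 ^ p.a i :=
      Nat.one_le_iff_ne_zero.2 (Finset.prod_ne_zero_iff.2 fun i _ => by positivity)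
    exact Nat.one_le_iff_ne_zero.2 (Nat.mul_ne_zero (by omega) (by omega))

theorem pf_BGM : T_BGM := by
  intro p m n d
  induction d generalizing n with
  | zero => intro T T' h hT; exact h hT
  | succ d ih =>
    rintro T T' h ⟨C, h1, h2, h3⟩
    exact ⟨C, h1, h2, fun c hc => ih (n + 1) _ _ (fun u hu => h hu) (h3 c hc)⟩

theorem big_nonempty (p : Par) (m : ℕ) (d : ℕ) : ∀ (n : ℕ) (T : Set (List ℕ)), Big p m n d T →
    ∃ u, u ∈ T := by
  induction d with
  | zero => intro n T h; exact ⟨[], h⟩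
  | succ d ih =>
    rintro n T ⟨C, h1, -, h3⟩
    have hC : C.Nonempty := by
      rw [← Finset.card_pos, h1]
      exact e_pos p m n
    obtain ⟨c, hc⟩ := hC
    obtain ⟨u, hu⟩ := ih (n + 1) _ (h3 c hc)
    exact ⟨c :: u, hu⟩

theorem big_take (p : Par) (m : ℕ) (d' : ℕ) : ∀ (n d : ℕ) (T : Set (List ℕ)), d' ≤ d →
    Big p m n d T → Big p m n d' {r | ∃ u ∈ T, u.take d' = r} := by
  induction d' with
  | zero =>
    intro n d T _ h
    obtain ⟨u, hu⟩ := big_nonempty p m d n T h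
    exact ⟨u, hu, rfl⟩
  | succ d' ih =>
    intro n d T hd h
    obtain ⟨d, rfl⟩ : ∃ e, d = e + 1 := ⟨d - 1, by omega⟩
    obtain ⟨C, h1, h2, h3⟩ := h
    refine ⟨C, h1, h2, fun c hc => pf_BGM p m (n + 1) d' _ _ ?_ (ih (n + 1) d _ (by omega) (h3 c hc))⟩
    rintro r ⟨u, hu, rfl⟩
    exact ⟨c :: u, hu, rfl⟩

theorem big_drop (p : Par) (m : ℕ) (d' : ℕ) (k : ℕ) : ∀ (n d : ℕ) (T : Set (List ℕ)),
    k + d' ≤ d → Big p m n d T →
    Big p m (n + k) d' {r | ∃ u ∈ T, (u.drop k).take d' = r} := by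
  induction k with
  | zero =>
    intro n d T hd h
    exact big_take p m d' n d T (by omega) h
  | succ k ih =>
    intro n d T hd h
    obtain ⟨d, rfl⟩ : ∃ e, d = e + 1 := ⟨d - 1, by omega⟩
    obtain ⟨C, h1, h2, h3⟩ := h
    have hC : C.Nonempty := by
      rw [← Finset.card_pos, h1]
      exact e_pos p m n
    obtain ⟨c, hc⟩ := hC
    have h4 := ih (n + 1) d _ (by omega) (h3 c hc)
    have e : n + 1 + k = n + (k + 1) := by omega
    rw [e] at h4
    refine pf_BGM p m _ d' _ _ ?_ h4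
    rintro r ⟨u, hu, rfl⟩
    exact ⟨c :: u, hu, rfl⟩

theorem pf_RSB : T_RSB := by
  intro p m n d i d' T hni hid h
  obtain ⟨k, rfl⟩ := Nat.exists_eq_add_of_le hni
  have h1 := big_drop p m d' k n d T (by omega) h
  have e : n + k - n = k := by omega
  rw [e]
  exact h1

end Pool.Agent.H48.FC.RSB
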