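import Pool.Agent.H48.FC.CLB

/-! Module STP of the board `fc_modules`: one step down. -/

namespace Pool.Agent.H48.FC.STP

open Set Pool.Agent.H9.FC

variable {Ω : Type} [LinearOrder Ω]

omit [LinearOrder Ω] in
/-- for finitely many hereditary properties we can decide densely which of them hold -/
theorem choose_fin {ι : Type} {Q : Set (Set (Pt Ω))} (L : Set (Pt Ω) → ι → Prop)
    (hL : ∀ V V' u, V' ⊆ V → L V u → L V' u) (B : Finset ι) : ∀ U ∈ Q, ∃ V ∈ Q, V ⊆ U ∧
      ∃ S ⊆ B, ∀ u ∈ B, (u ∈ S → L V u) ∧ (u ∉ S → ∀ V' ∈ Q, V' ⊆ V → ¬ L V' u) := by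
  classical
  induction B using Finset.induction_on with
  | empty => intro U hU; exact ⟨U, hU, subset_rfl, ∅, subset_rfl, by simp⟩
  | insert a B ha ih =>
    intro U hU
    obtain ⟨V, hV, hVU, S, hS, h1⟩ := ih U hU
    by_cases hex : ∃ W ∈ Q, W ⊆ V ∧ L W a
    · obtain ⟨W, hW, hWV, hWa⟩ := hex
      refine ⟨W, hW, hWV.trans hVU, insert a S, Finset.insert_subset_insert a hS, fun u hu => ?_⟩
      by_cases hua : u = a
      · subst hua
        exact ⟨fun _ => hWa, fun h => absurd (Finset.mem_insert_self _ _) h⟩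
      · have huB : u ∈ B := (Finset.mem_insert.1 hu).resolve_left hua
        refine ⟨fun h => hL V W u hWV ((h1 u huB).1 ((Finset.mem_insert.1 h).resolve_left hua)),
          fun h V' hV' hV'W => (h1 u huB).2 (fun h' => h (Finset.mem_insert_of_mem h')) V' hV'
            (hV'W.trans hWV)⟩
    · refine ⟨V, hV, hVU, S, hS.trans (Finset.subset_insert _ _), fun u hu => ?_⟩
      by_cases hua : u = a
      · subst hua
        refine ⟨fun h => absurd (hS h) ha, fun _ V' hV' hV'V hLa => hex ⟨V', hV', hV'V, hLa⟩⟩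
      · exact h1 u ((Finset.mem_insert.1 hu).resolve_left hua)

theorem res_drop_take (x : ℕ → ℕ) (a d i k : ℕ) (h1 : a ≤ i) (h2 : i + k ≤ a + d) :
    ((res x a d).drop (i - a)).take k = res x i k := by
  apply List.ext_getElem
  · simp [res]
    omega
  · intro j hj hj'
    simp only [res, List.getElem_take, List.getElem_drop, List.getElem_map, List.getElem_range]
    congr 1
    omega

section

variable [WellFoundedLT Ω]

/-- the values of the new name -/
def Dn (p : Par) (β γ : Ω) (y : Pt Ω → ℕ → BVal) (s : List (Finset ℕ)) (l m n : ℕ) (v : BVal)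
    (V : Set (Pt Ω)) : Prop :=
  v.1 = n + m ∧ v.2.2 ⊆ boxF p (n + m) v.2.1 ∧ KK p β γ y s l (n + m) v.2.1 V ∧
    ∀ u ∈ boxF p (n + m) v.2.1, (u ∈ v.2.2 → LL p β γ y s l (n + m) v.2.1 V u) ∧
      (u ∉ v.2.2 → ∀ V' ∈ PP p γ, V' ⊆ V → ¬ LL p β γ y s l (n + m) v.2.1 V' u)

theorem KK.mono {p : Par} {β γ : Ω} {y : Pt Ω → ℕ → BVal} {s : List (Finset ℕ)} {l n d : ℕ}
    {V V' : Set (Pt Ω)} (h : KK p β γ y s l n d V) (hV : V' ⊆ V) : KK p β γ y s l n d V' :=
  fun W hW hWV => h W hW (hWV.trans hV)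

theorem LL.mono {p : Par} {β γ : Ω} {y : Pt Ω → ℕ → BVal} {s : List (Finset ℕ)} {l n d : ℕ}
    {V V' : Set (Pt Ω)} {u : List ℕ} (h : LL p β γ y s l n d V u) (hV : V' ⊆ V) :
    LL p β γ y s l n d V' u := by
  obtain ⟨φ, h1, h2⟩ := h
  exact ⟨φ, h1, fun R hR hRV => h2 R hR (hRV.trans (inter_subset_inter_left _ hV))⟩

theorem Dn.mono {p : Par} {β γ : Ω} {y : Pt Ω → ℕ → BVal} {s : List (Finset ℕ)} {l m n : ℕ}
    {v : BVal} {V V' : Set (Pt Ω)} (h : Dn p β γ y s l m n v V) (hV : V' ⊆ V) :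
    Dn p β γ y s l m n v V' := by
  obtain ⟨h1, h2, h3, h4⟩ := h
  refine ⟨h1, h2, KK.mono h3 hV, fun u hu => ⟨fun h => LL.mono ((h4 u hu).1 h) hV,
    fun h W hW hWV => (h4 u hu).2 h W hW (hWV.trans hV)⟩⟩

open Classical in
/-- repair of a value -/
noncomputable def fixv (p : Par) (m n : ℕ) (v : BVal) : BVal :=
  if n ≤ v.1 ∧ Pool.Agent.H9.FC.Small p (m + 1) v then v else (n, 0, ∅)

theorem fixv_good (p : Par) (m n : ℕ) (v : BVal) :
    n ≤ (fixv p m n v).1 ∧ Pool.Agent.H9.FC.Small p (m + 1) (fixv p m n v) := by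
  unfold fixv
  split_ifs with h
  · exact h
  · refine ⟨le_rfl, ?_⟩
    intro h
    have : [] ∈ (↑(∅ : Finset (List ℕ)) : Set (List ℕ)) := h
    simp at this

theorem pf_STP (hNAM : T_NAM) (hCLA : T_CLA) (hCLB : T_CLB) (hBOX : T_BOX) (hBAS : T_BAS) :
    T_STP := by
  classical
  intro p Ω _ _ β γ m y s l hγβ hy hs hls
  have hne : ∀ (δ : Ω) (U : Set (Pt Ω)), U ∈ PP p δ → U.Nonempty := (hBAS p Ω).2.2.2.1
  -- density
  have hdense : ∀ n, ∀ V ∈ PP p γ, ∃ V' ∈ PP p γ, V' ⊆ V ∧ ∃ v, Dn p β γ y s l m n v V' := by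
    intro n V hV
    obtain ⟨V1, hV1, hV1V, d, hKK⟩ := hCLA p Ω β γ m y s l (n + m) hγβ hy hs hls V hV
    obtain ⟨V2, hV2, hV21, S, hS, h1⟩ := choose_fin (Q := PP p γ)
      (fun V u => LL p β γ y s l (n + m) d V u) (fun V V' u hV h => LL.mono h hV)
      (boxF p (n + m) d) V1 hV1
    exact ⟨V2, hV2, hV21.trans hV1V, (n + m, d, S), rfl, hS, KK.mono hKK hV21, h1⟩
  have huniv : (univ : Set (Pt Ω)) ∈ PP p γ := (mem_PP p γ _).2 (Or.inl rfl)
  obtain ⟨f, hf1, hf2, -, hf4⟩ := hNAM p Ω γ BVal (0, 0, ∅)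
    (fun F V => ∀ j < F.length, Dn p β γ y s l m j (F.getD j (0, 0, ∅)) V) univ huniv
    (by intro j hj; simp at hj)
    (fun F V V' _ hV h j hj => Dn.mono (h j hj) hV)
    (by
      intro F V hV _ hΦ
      obtain ⟨V', hV', hV'V, v, hv⟩ := hdense F.length V hV
      refine ⟨V', hV', hV'V, v, fun j hj => ?_⟩
      rw [List.length_append, List.length_singleton] at hj
      rcases Nat.lt_succ_iff_lt_or_eq.1 hj with hj | rfl
      · rw [List.getD_append _ _ _ _ hj]
        exact Dn.mono (hΦ j hj) hV'V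
      · rw [List.getD_append_right _ _ _ _ le_rfl]
        simpa using hv)
  refine ⟨fun x n => fixv p m n (f x n), ⟨fun x n => fixv_good p m n (f x n), ?_, ?_⟩, ?_⟩
  · intro x x' hx
    funext n
    show fixv p m n (f x n) = fixv p m n (f x' n)
    rw [hf1 x x' hx]
  · intro n U hU
    obtain ⟨V, hV, hVU, c, hc⟩ := hf2 n U hU
    refine ⟨V, hV, hVU, fixv p m n c, fun x hx => ?_⟩
    show fixv p m n (f x n) = fixv p m n c
    rw [show f x n = c from hc x hx]
  · intro φ V x n₀ hφ hV hx hFo n hn V1 hV1 hV1V c hc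
    obtain ⟨V2, hV2, hV21, hdec⟩ := CLB.dec_fin (Q := PP p γ) (Finset.range (n + 1))
      (fun j t => f t j) (fun j _ => hf2 j) V1 hV1
    obtain ⟨t₀, ht₀⟩ := hne γ V2 hV2
    have hval : ∀ j < n + 1, ∀ t ∈ V2, f t j = f t₀ j := by
      intro j hj t ht
      obtain ⟨c', hc'⟩ := hdec j (Finset.mem_range.2 hj)
      exact (hc' t ht).trans (hc' t₀ ht₀).symm
    obtain ⟨V3, hV3, hV32, hΦ⟩ := hf4 ((List.range (n + 1)).map (f t₀)) V2 hV2 (subset_univ _) (by
      intro t ht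
      rw [List.length_map, List.length_range]
      refine List.map_congr_left fun j hj => ?_
      exact hval j (List.mem_range.1 hj) t ht)
    have hD := hΦ n (by simp)
    have hget : ((List.range (n + 1)).map (f t₀)).getD n (0, 0, ∅) = f t₀ n := by
      rw [List.getD_eq_getElem _ _ (by simp)]
      simp
    rw [hget] at hD
    obtain ⟨h1, h2, h3, h4⟩ := hD
    have hsm : Pool.Agent.H9.FC.Small p (m + 1) (f t₀ n) := by
      unfold Pool.Agent.H9.FC.Small
      rw [h1]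
      exact hCLB p Ω β γ m y s l (n + m) (f t₀ n).2.1 hγβ hy hs hls (Nat.le_add_left m n) V3 hV3 h3
        (f t₀ n).2.2 h2 (fun u hu => (h4 u (h2 hu)).1 hu)
    obtain ⟨t₁, ht₁⟩ := hne γ V3 hV3
    have hcv : c = f t₀ n := by
      have h5 : fixv p m n (f t₁ n) = c := hc t₁ (hV21 (hV32 ht₁))
      rw [hval n (Nat.lt_succ_self n) t₁ (hV32 ht₁)] at h5
      unfold fixv at h5
      rw [if_pos ⟨by rw [h1]; omega, hsm⟩] at h5
      exact h5.symm
    subst hcv
    show res x (f t₀ n).1 (f t₀ n).2.1 ∈ (f t₀ n).2.2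
    rw [h1]
    have hbox : res x (n + m) (f t₀ n).2.1 ∈ boxF p (n + m) (f t₀ n).2.1 := by
      rw [hBOX]
      refine ⟨by simp [res], fun j hj => ?_⟩
      rw [List.getD_eq_getElem _ _ (by simpa [res] using hj)]
      simpa [res] using hx (n + m + j)
    by_contra hno
    refine (h4 _ hbox).2 hno V3 hV3 subset_rfl ⟨φ, hφ, fun R hR hRV c' hc' hcd => ?_⟩
    obtain ⟨t₂, ht₂⟩ := hne β R hR
    have hyt := hy.1 t₂ (n + m)
    rw [hc' t₂ ht₂] at hyt
    rw [res_drop_take x _ _ _ _ hyt.1 hcd]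
    refine hFo (n + m) (by omega) R hR (hRV.trans (inter_subset_inter_left _ ?_)) c' hc'
    exact hV32.trans (hV21.trans hV1V)

end

end Pool.Agent.H48.FC.STP
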